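import Pool.Agent.Run7.h470.Iso.Fwd2
import Pool.Agent.Run7.h470.Iso.PolyT

/-!
# Deciding whether a semialgebraic set has an isolated point is `∃∀ℝ`-complete

Sketch of the hardness proof.

*Compact normal form with a gap.*  A sentence `∃ x ∀ z, ¬ S(x, z)`, with `S` a system of
constraints `v = 1`, `u + v = w`, `u v = w`, is turned into `∃ x ∈ [-1,1]^n ∀ y ∈ [-1,1]^M,
g(x, y) > 0` with an explicit polynomial `g` (large numbers and powers being written by repeated
squaring), in such a way that the maximum over `x` of the minimum over `y` of `g` is at least
`δ = 2^(-2^c)` if the sentence is true, and the sentence is true as soon as `g(x, ·) > 0` for some
`x`.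

*Making `x` isolated.*  We perturb `g` by `∑ c_γ p_γ(y) + ∑ a_i x_i`, where the functions `p_γ` are
the products of `1` or a coordinate with small powers of sufficiently many integral linear forms,
so that the values and gradients of the perturbation at any `k ≤ n + 1` distinct points can be
prescribed.  At a maximizer `x` of the minimum over `y` there are `k ≤ n + 1` distinct points
`y^j` at which the minimum is attained and positive weights `λ_j` such that `(x, t, λ, y^1, …,
y^k)` satisfies the first-order conditions.  The set of all pairs (coefficients, solution of the
first-order conditions) is covered by the images of exponentially many rational maps from `ℝ^A`,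
where `A` is the number of the coefficients, and a counting argument shows that outside a
hypersurface of singly exponential logarithmic degree in the space of coefficients there are only
finitely many solutions.  Hence coefficients with polynomially many binary digits are good.

*The set.*  Its points consist of the binary digits of the coefficients, of powers of `1/2`, of a
solution of the first-order conditions (with its intermediate results) and of a point of the cone
over `{y ∈ [-1,1]^M : g(x, y) ≤ 0}`.  A point off the apex is never isolated, and a point at the
apex is isolated only if `g(x, ·) > 0`; conversely for good coefficients there are only finitely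
many points at the apex with the given digits, among them one with `g(x, ·) > 0`.
-/

namespace Pool.Agent.Results.MP_47d501_lc.IsolatedPointComplete

open Pool.Agent.NPC Pool.Agent.NPC.ER Pool.Agent.NPC.H470Iso

/-- Deciding whether a semialgebraic set has an isolated point is `∃∀ℝ`-complete under
polynomial-time many-one reductions. -/
theorem result : EARComplete (lang IsoPt) :=
  ⟨iso_mem, EARHard.of_poly (F := hinst) (poly_hinst Poly.id) fun _ => ⟨iso_of_ear _, ear_of_iso⟩⟩

end Pool.Agent.Results.MP_47d501_lc.IsolatedPointComplete
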